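import Pool.Agent.HGM.Regs
import Pool.Agent.HGC.Proj

/-!
# The exact count
-/

set_option autoImplicit false

open scoped BigOperators LinearAlgebra.Projectivization

namespace Pool.Agent.HGM

open Pool.Agent.HGC

section

variable {n D : ℕ} {ι : Type} [Fintype ι] [DecidableEq ι] (ℓ : ι → List (Bool × (Fin D → Fin n)))

/-- The terms after numbering the registers and the equations. -/
noncomputable def tm' (k : Fin (Fintype.card (Gm ℓ))) :
    Finset (Fin n × Fin (Fintype.card (Rg ℓ × Bool))) :=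
  (tm ℓ ((Fintype.equivFin (Gm ℓ)).symm k)).map
    ((Equiv.refl (Fin n)).prodCongr (Fintype.equivFin (Rg ℓ × Bool))).toEmbedding

/-- The hypergraph. -/
noncomputable def theHG : HG where
  a := n
  b := Fintype.card (Rg ℓ × Bool)
  c := Fintype.card (Gm ℓ)
  edges := edgesOf (tm' ℓ)

theorem card_Gm_pos : 0 < Fintype.card (Gm ℓ) :=
  Fintype.card_pos_iff.2 ⟨.inr (.inr (.inr (.inr (.inr ()))))⟩

theorem theHG_zdeg : ZDeg 3 (theHG ℓ).edges := by
  refine zdeg_edgesOf (tm' ℓ) 3 fun k => ?_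
  rw [tm', Finset.card_map]
  exact tm_card ℓ _

theorem theHG_zform {K : Type} [Field K] (x : Fin n → K)
    (y : Fin (Fintype.card (Rg ℓ × Bool)) → K) :
    zform (edgesOf (tm' ℓ)) x y = 0 ↔ Sys ℓ x fun rb => y (Fintype.equivFin (Rg ℓ × Bool) rb) := by
  rw [zform_edgesOf, ← sys_iff]
  have h1 : ∀ k, ∑ t ∈ tm' ℓ k, x t.1 * y t.2 = ∑ t ∈ tm ℓ ((Fintype.equivFin (Gm ℓ)).symm k),
      x t.1 * y (Fintype.equivFin (Rg ℓ × Bool) t.2) := by
    intro k
    rw [tm', Finset.sum_map]
    rfl
  constructor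
  · intro h k
    have h2 := h (Fintype.equivFin (Gm ℓ) k)
    rw [h1, Equiv.symm_apply_apply] at h2
    exact h2
  · intro h k
    rw [h1]
    exact h _

theorem theHG_bz (K : Type) [Field K] [Finite K] :
    (bzCount (edgesOf (tm' ℓ)) K : ℤ) = ((Nat.card K : ℤ) - 1) *
      Nat.card {x : {x : Fin n → K // x ≠ 0} // ∀ i, lval x.1 (ℓ i) = 0} := by
  classical
  set e := Fintype.equivFin (Rg ℓ × Bool) with he
  -- the point attached to `x` and a unit
  let Y : (Fin n → K) → Kˣ → Fin (Fintype.card (Rg ℓ × Bool)) → K := fun x u b =>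
    (u : K) * val ℓ x (e.symm b)
  have hYne : ∀ (x : Fin n → K) (u : Kˣ), x ≠ 0 → Y x u ≠ 0 := by
    intro x u hx h
    obtain ⟨rb, hrb⟩ := val_ne ℓ x hx
    have h1 := congrFun h (e rb)
    simp only [Y, Equiv.symm_apply_apply, Pi.zero_apply] at h1
    rcases mul_eq_zero.1 h1 with h2 | h2
    · exact u.ne_zero h2
    · exact hrb h2
  let F : {x : {x : Fin n → K // x ≠ 0} // ∀ i, lval x.1 (ℓ i) = 0} × Kˣ →
      {v : {x : Fin n → K // x ≠ 0} × {y : Fin (Fintype.card (Rg ℓ × Bool)) → K // y ≠ 0} //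
        zform (edgesOf (tm' ℓ)) v.1.1 v.2.1 = 0} := fun xu =>
    ⟨(xu.1.1, ⟨Y xu.1.1.1 xu.2, hYne _ _ xu.1.1.2⟩), by
      rw [theHG_zform]
      have h1 := sys_val ℓ xu.1.1.1 xu.1.2 (xu.2 : K)
      have h2 : (fun rb => Y xu.1.1.1 xu.2 (e rb)) = fun rb => (xu.2 : K) * val ℓ xu.1.1.1 rb := by
        funext rb
        simp only [Y, Equiv.symm_apply_apply]
      rw [← h2] at h1
      exact h1⟩
  have hF : Function.Bijective F := by
    constructor
    · rintro ⟨⟨x, hx⟩, u⟩ ⟨⟨x', hx'⟩, u'⟩ h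
      have h0 := congrArg Subtype.val h
      have h1 : x = x' := congrArg Prod.fst h0
      subst h1
      have h2 : Y x.1 u = Y x.1 u' := congrArg (fun v => v.2.1) h0
      obtain ⟨rb, hrb⟩ := val_ne ℓ x.1 x.2
      have h3 := congrFun h2 (e rb)
      simp only [Y, Equiv.symm_apply_apply] at h3
      have h4 : u = u' := Units.ext (mul_right_cancel₀ hrb h3)
      rw [h4]
    · rintro ⟨⟨⟨x, hx⟩, ⟨y, hy⟩⟩, hz⟩
      rw [theHG_zform] at hz
      obtain ⟨c, hc, hc'⟩ := sys_complete ℓ x hx _ hz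
      have hc0 : c ≠ 0 := by
        rintro rfl
        apply hy
        funext b
        have h1 := hc (e.symm b)
        rw [Equiv.apply_symm_apply, zero_mul] at h1
        exact h1
      refine ⟨(⟨⟨x, hx⟩, fun i => ?_⟩, Units.mk0 c hc0), ?_⟩
      · rcases mul_eq_zero.1 (hc' i) with h1 | h1
        · exact absurd h1 hc0
        · exact h1
      · apply Subtype.ext
        refine Prod.ext rfl ?_
        apply Subtype.ext
        funext b
        have h1 := hc (e.symm b)
        rw [Equiv.apply_symm_apply] at h1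
        exact h1.symm
  have h1 := Nat.card_eq_of_bijective F hF
  unfold bzCount
  rw [← h1, Nat.card_prod, Nat.card_units]
  have hK : 1 ≤ Nat.card K := Nat.card_pos
  push_cast [Nat.cast_sub hK]
  ring

end

/-- The exact count: every projective scheme over the integers is, up to an explicit polynomial and a
power of `q`, a hypersurface of multidegree (1,1,1) with coefficients `0` and `1` and at most three
monomials for each variable of the third kind. -/
theorem exact_count {n m : ℕ} (P : Fin m → MvPolynomial (Fin n) ℤ)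
    (hP : ∀ i, ∃ d, 1 ≤ d ∧ (P i).IsHomogeneous d) :
    ∃ (h : HG) (M : ℕ), h.a = n ∧ h.c = M + 1 ∧ ZDeg 3 h.edges ∧
      ∀ (K : Type) [Field K] [Finite K], multiCount h.edges K =
        qn (Nat.card K) h.a * qn (Nat.card K) h.b * qn (Nat.card K) M +
          Nat.card K ^ M * projCount P K := by
  classical
  choose d hd hP using hP
  set D : ℕ := Finset.univ.sup d with hD
  have hdD : ∀ i, d i ≤ D := fun i => Finset.le_sup (Finset.mem_univ i)
  have hQ : ∀ ij : Fin m × Fin n, Rep D (MvPolynomial.X ij.2 ^ (D - d ij.1) * P ij.1) := by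
    intro ij
    apply rep_of_isHomogeneous
    have h1 := ((MvPolynomial.isHomogeneous_X ℤ ij.2).pow (D - d ij.1)).mul (hP ij.1)
    have h2 : 1 * (D - d ij.1) + d ij.1 = D := by
      have := hdD ij.1
      omega
    rw [h2] at h1
    exact h1
  choose ℓ hℓ using hQ
  obtain ⟨M, hM⟩ : ∃ M, Fintype.card (Gm ℓ) = M + 1 :=
    Nat.exists_eq_succ_of_ne_zero (card_Gm_pos ℓ).ne'
  refine ⟨theHG ℓ, M, rfl, hM, theHG_zdeg ℓ, fun K _ _ => ?_⟩
  have h3 : ∀ x : Fin n → K, x ≠ 0 →
      ((∀ i, lval x (ℓ i) = 0) ↔ ∀ i, MvPolynomial.aeval x (P i) = 0) := by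
    intro x hx
    constructor
    · intro h i
      obtain ⟨j, hj⟩ : ∃ j, x j ≠ 0 := by
        by_contra h'
        push Not at h'
        exact hx (funext h')
      have h4 := h (i, j)
      rw [← hℓ (i, j) K x, map_mul, map_pow, MvPolynomial.aeval_X] at h4
      rcases mul_eq_zero.1 h4 with h5 | h5
      · exact absurd h5 (pow_ne_zero _ hj)
      · exact h5
    · intro h ij
      rw [← hℓ ij K x, map_mul, h ij.1, mul_zero]
  have h4 : Nat.card {x : {x : Fin n → K // x ≠ 0} // ∀ i, lval x.1 (ℓ i) = 0} =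
      Nat.card {x : {x : Fin n → K // x ≠ 0} // ∀ i, MvPolynomial.aeval x.1 (P i) = 0} :=
    Nat.card_congr (Equiv.subtypeEquivRight fun x => h3 x.1 x.2)
  have h5 := card_cone (K := K) (V := Fin n → K) (fun x => ∀ i, MvPolynomial.aeval x (P i) = 0)
    (by
      intro u x
      refine forall_congr' fun i => ?_
      rw [aeval_smul_of_isHomogeneous (hP i)]
      constructor
      · intro h
        rcases mul_eq_zero.1 h with h6 | h6
        · exact absurd h6 (pow_ne_zero _ u.ne_zero)
        · exact h6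
      · intro h
        rw [h, mul_zero])
  have h6 : (bzCount (edgesOf (tm' ℓ)) K : ℤ) = ((Nat.card K : ℤ) - 1) ^ 2 * projCount P K := by
    rw [theHG_bz, h4, h5]
    unfold projCount
    ring
  have h7 := multiCount_of_bz (edgesOf (tm' ℓ)) K M (projCount P K) (by rw [Fintype.card_fin, hM]) h6
  rw [Fintype.card_fin, Fintype.card_fin] at h7
  exact h7

end Pool.Agent.HGM
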