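import Pool.Agent.HGM.Defs
import Pool.Agent.HGC.Cont
import Pool.Agent.HGC.LocW
import Pool.Agent.HGC.DirSpan

/-!
# Weight parts and entire continuation
-/

set_option autoImplicit false

open scoped BigOperators

namespace Pool.Agent.HGM

open Pool.Agent.HGC Pool.Agent.HGC.LocWAux

theorem entire_congr {f g : PF} (h : ∀ p r, 1 ≤ r → f p r = g p r) (hf : Entire f) : Entire g := by
  obtain ⟨σ, G, hG, hs⟩ := hf
  refine ⟨σ, G, hG, fun s hs' => ?_⟩
  rw [← term_congr h s]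
  exact hs s hs'

theorem entire_mulq_iff {f : PF} :
    (Entire fun p r => ((p : ℕ) : ℂ) ^ r * f p r) ↔ Entire f := by
  constructor
  · rintro ⟨σ, G, hG, hs⟩
    refine ⟨σ - 1, fun s => G (s + 1), hG.comp (differentiable_id.add_const 1), fun s hs' => ?_⟩
    have := hs (s + 1) (by simp; linarith)
    rw [term_mulq] at this
    simpa using this
  · rintro ⟨σ, G, hG, hs⟩
    refine ⟨σ + 1, fun s => G (s - 1), hG.comp (differentiable_id.sub_const 1), fun s hs' => ?_⟩
    rw [term_mulq]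
    exact hs (s - 1) (by simp; linarith)

theorem shift_zero (f : PF) : shift 0 f = f := by
  funext p r
  simp [shift]

theorem shift_succ (M : ℕ) (f : PF) :
    shift (M + 1) f = fun (p : Nat.Primes) (r : ℕ) => ((p : ℕ) : ℂ) ^ r * shift M f p r := by
  funext p r
  simp only [shift]
  ring

theorem entire_shift_iff (M : ℕ) (f : PF) : Entire (shift M f) ↔ Entire f := by
  induction M with
  | zero => rw [shift_zero]
  | succ M ih => rw [shift_succ, entire_mulq_iff, ih]

theorem continues_shift_iff (M : ℕ) (f : PF) : Continues (shift M f) ↔ Continues f := by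
  induction M with
  | zero => rw [shift_zero]
  | succ M ih => rw [shift_succ, continues_mulq_iff, ih]

theorem scale_pow_wt {p : ℕ} (hp : p.Prime) (M : ℕ) (w : ℤ) (c : ℂ →₀ ℤ) :
    wt p w (scale ((p : ℂ) ^ M) c) = scale ((p : ℂ) ^ M) (wt p (w - 2 * M) c) := by
  induction M generalizing w with
  | zero => simp [scale_one]
  | succ M ih =>
    have h1 : ∀ d : ℂ →₀ ℤ, scale ((p : ℂ) ^ (M + 1)) d = scale (p : ℂ) (scale ((p : ℂ) ^ M) d) := by
      intro d
      rw [scale_scale, pow_succ, mul_comm]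
    rw [h1, h1, scale_wt hp, ih, show w - 2 - 2 * (M : ℤ) = w - 2 * ((M + 1 : ℕ) : ℤ) by
      push_cast; ring]

theorem wt_sum {ι : Type*} (p : ℕ) (w : ℤ) (s : Finset ι) (c : ι → ℂ →₀ ℤ) :
    wt p w (∑ i ∈ s, c i) = ∑ i ∈ s, wt p w (c i) := by
  classical
  induction s using Finset.induction_on with
  | empty => rw [Finset.sum_empty, Finset.sum_empty, wt_zero]
  | insert a s ha ih => rw [Finset.sum_insert ha, Finset.sum_insert ha, wt_add, ih]

theorem ev_sum {ι : Type*} (s : Finset ι) (c : ι → ℂ →₀ ℤ) (r : ℕ) :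
    ev (∑ i ∈ s, c i) r = ∑ i ∈ s, ev (c i) r := by
  classical
  induction s using Finset.induction_on with
  | empty => rw [Finset.sum_empty, Finset.sum_empty, ev_zero]
  | insert a s ha ih => rw [Finset.sum_insert ha, Finset.sum_insert ha, ev_add, ih]

theorem norm_pow_eq_iff (p : Nat.Primes) (k : ℕ) (w : ℤ) :
    ‖((p : ℕ) : ℂ) ^ k‖ = ((p : ℕ) : ℝ) ^ ((w : ℝ) / 2) ↔ 2 * (k : ℤ) = w := by
  rw [norm_pow, Complex.norm_natCast]
  constructor
  · intro h
    by_contra h'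
    refine DSAux.zpow_ne_rpow p (k : ℤ) w (fun h2 => h' h2.symm) ?_
    rw [zpow_natCast]
    exact h
  · rintro rfl
    rw [DSAux.rpow_half, zpow_natCast]

/-- The weight parts of `∑_t q^{e t} + q^M f`. -/
theorem weightPart_poly_add_shift {ι : Type*} (B : Finset ι) (e : ι → ℕ) (M : ℕ) (f g : PF)
    (hg : ∀ p r, 1 ≤ r → g p r = (∑ t ∈ B, (((p : ℕ) : ℂ) ^ r) ^ e t) + shift M f p r)
    (μ ν : Nat.Primes → ℂ →₀ ℤ) (hμ : IsSpectrum f μ) (hν : IsSpectrum g ν) (w : ℤ)
    (p : Nat.Primes) (r : ℕ) :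
    weightPart ν w p r = (∑ t ∈ B.filter fun t => 2 * (e t : ℤ) = w, (((p : ℕ) : ℂ) ^ r) ^ e t) +
      (((p : ℕ) : ℂ) ^ r) ^ M * weightPart μ (w - 2 * M) p r := by
  classical
  have h1 : wt (p : ℕ) w (ν p) = wt (p : ℕ) w ((∑ t ∈ B, Finsupp.single (((p : ℕ) : ℂ) ^ e t) 1) +
      scale (((p : ℕ) : ℂ) ^ M) (μ p)) := by
    refine ev_wt_congr p.2 (fun r hr => ?_) w
    have h2 : ev (ν p) r = g p r := (hν p r hr).symm
    have h3 : ev (μ p) r = f p r := (hμ p r hr).symm
    rw [h2, hg p r hr, ev_add, ev_sum, ev_scale, h3, shift]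
    congr 1
    · refine Finset.sum_congr rfl fun t _ => ?_
      rw [ev_single, Int.cast_one, one_mul, ← pow_mul, ← pow_mul, mul_comm]
    · rw [← pow_mul, ← pow_mul, mul_comm M r]
  rw [weightPart_eq, weightPart_eq, h1, wt_add, wt_sum, ev_add, ev_sum, scale_pow_wt p.2, ev_scale,
    Finset.sum_filter]
  congr 1
  · refine Finset.sum_congr rfl fun t _ => ?_
    by_cases h : 2 * (e t : ℤ) = w
    · rw [if_pos h, wt_single_pos ((norm_pow_eq_iff p (e t) w).2 h), ev_single, Int.cast_one, one_mul,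
        ← pow_mul, ← pow_mul, mul_comm]
    · rw [if_neg h, wt_single_neg (fun h' => h ((norm_pow_eq_iff p (e t) w).1 h')), ev_zero]
  · rw [← pow_mul, ← pow_mul, mul_comm M r]

theorem qn_mul (q a b c : ℕ) : qn q a * qn q b * qn q c =
    ∑ t ∈ Finset.range a ×ˢ Finset.range b ×ˢ Finset.range c, q ^ (t.1 + t.2.1 + t.2.2) := by
  unfold qn
  rw [Finset.sum_mul_sum, Finset.sum_mul, Finset.sum_product]
  refine Finset.sum_congr rfl fun i _ => ?_
  rw [Finset.sum_mul_sum, Finset.sum_product]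
  refine Finset.sum_congr rfl fun j _ => ?_
  refine Finset.sum_congr rfl fun k _ => ?_
  rw [pow_add, pow_add]

/-- The relation between the functions `lfun`. -/
theorem lfun_shift (a b M : ℕ) (f g : PF)
    (hg : ∀ p r, 1 ≤ r → g p r = ((qn ((p : ℕ) ^ r) a * qn ((p : ℕ) ^ r) b * qn ((p : ℕ) ^ r) M : ℕ) : ℂ)
      + shift M f p r)
    (μ ν : Nat.Primes → ℂ →₀ ℤ) (hμ : IsSpectrum f μ) (hν : IsSpectrum g ν) (S : Set Nat.Primes)
    (φ : PF) (i c : ℤ) (p : Nat.Primes) (r : ℕ) :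
    lfun S (shift M φ) ν (i + 2 * M) (c + kap a b M i) p r =
      shift M (lfun S φ μ i c) p r := by
  classical
  have h1 := weightPart_poly_add_shift (Finset.range a ×ˢ Finset.range b ×ˢ Finset.range M)
    (fun t => t.1 + t.2.1 + t.2.2) M f g (fun p r hr => by
      rw [hg p r hr, qn_mul]
      push_cast
      rfl) μ ν hμ hν (i + 2 * M) p r
  rw [show i + 2 * (M : ℤ) - 2 * M = i by ring] at h1
  unfold lfun
  by_cases hS : p ∈ S
  · rw [if_pos hS, shift, shift, if_pos hS]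
  · rw [if_neg hS, shift, if_neg hS, h1]
    have hsign : (i + 2 * (M : ℤ)).negOnePow = i.negOnePow := by
      rw [Int.negOnePow_add, Int.negOnePow_even (2 * (M : ℤ)) (even_two_mul _), mul_one]
    have hdiv : (i + 2 * (M : ℤ)) / 2 = i / 2 + M := by omega
    have hp0 : ((p : ℕ) : ℂ) ≠ 0 := by exact_mod_cast p.2.ne_zero
    have hsum : ∑ t ∈ (Finset.range a ×ˢ Finset.range b ×ˢ Finset.range M).filter
        (fun t => 2 * ((t.1 + t.2.1 + t.2.2 : ℕ) : ℤ) = i + 2 * M),
        (((p : ℕ) : ℂ) ^ r) ^ (t.1 + t.2.1 + t.2.2) =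
        (kap a b M i : ℂ) * ((((p : ℕ) : ℂ) ^ (i / 2 + M)) ^ r) := by
      unfold kap
      rw [Finset.sum_congr rfl (g := fun _ => (((p : ℕ) : ℂ) ^ (i / 2 + M)) ^ r), Finset.sum_const,
        nsmul_eq_mul]
      intro t ht
      have h2 : 2 * ((t.1 + t.2.1 + t.2.2 : ℕ) : ℤ) = i + 2 * M := (Finset.mem_filter.1 ht).2
      have h3 : i / 2 + M = ((t.1 + t.2.1 + t.2.2 : ℕ) : ℤ) := by omega
      rw [h3, zpow_natCast, ← pow_mul, ← pow_mul, mul_comm]
    have hodd : (kap a b M i : ℂ) * ((i.negOnePow : ℤˣ) : ℤ) = kap a b M i := by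
      by_cases hi : Even i
      · rw [Int.negOnePow_even i hi]
        simp
      · have h4 : kap a b M i = 0 := by
          unfold kap
          rw [Finset.card_eq_zero, Finset.filter_eq_empty_iff]
          intro t _ h5
          apply hi
          refine ⟨((t.1 + t.2.1 + t.2.2 : ℕ) : ℤ) - M, by linarith⟩
        rw [h4]
        simp
    have hz : (((p : ℕ) : ℂ) ^ (i / 2 + (M : ℤ))) ^ r =
        (((p : ℕ) : ℂ) ^ r) ^ M * (((p : ℕ) : ℂ) ^ (i / 2)) ^ r := by
      rw [zpow_add₀ hp0, mul_pow, zpow_natCast, ← pow_mul, ← pow_mul, mul_comm M r]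
      ring
    rw [hsum, hsign, hdiv, hz]
    push_cast
    linear_combination ((((p : ℕ) : ℂ) ^ r) ^ M * (((p : ℕ) : ℂ) ^ (i / 2)) ^ r) * hodd

theorem countPF_eq (N : (K : Type) → [Field K] → ℕ) (p : Nat.Primes) (r : ℕ)
    [Fact (p : ℕ).Prime] : countPF N p r = (N (GaloisField p r) : ℂ) := rfl

end Pool.Agent.HGM
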