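import Pool.Agent.HGM.Defs
import Pool.Agent.HGC.Bil

/-!
# Counting points of hypersurfaces of multidegree (1,1,1)
-/

set_option autoImplicit false

open scoped BigOperators LinearAlgebra.Projectivization

namespace Pool.Agent.HGM

open Pool.Agent.HGC

/-- Nonzero vectors are multiples of representatives of points of projective space. -/
theorem cone_bijective (K V : Type) [Field K] [AddCommGroup V] [Module K V] :
    Function.Bijective (fun vu : ℙ K V × Kˣ =>
      (⟨(vu.2 : K) • vu.1.rep, smul_ne_zero vu.2.ne_zero vu.1.rep_nonzero⟩ : {x : V // x ≠ 0})) := by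
  constructor
  · rintro ⟨v, u⟩ ⟨v', u'⟩ h
    have h1 : (u : K) • v.rep = (u' : K) • v'.rep := congrArg Subtype.val h
    have h2 : v = v' := by
      rw [← v.mk_rep, ← v'.mk_rep, Projectivization.mk_eq_mk_iff']
      refine ⟨(u : K)⁻¹ * u', ?_⟩
      rw [mul_smul, ← h1, smul_smul, inv_mul_cancel₀ u.ne_zero, one_smul]
    subst h2
    have h3 : (u : K) = u' := by
      have h4 : ((u : K) - u') • v.rep = 0 := by rw [sub_smul, h1, sub_self]
      rcases smul_eq_zero.mp h4 with h5 | h5
      · exact sub_eq_zero.mp h5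
      · exact absurd h5 v.rep_nonzero
    have h6 : u = u' := Units.ext h3
    rw [h6]
  · rintro ⟨x, hx⟩
    obtain ⟨a, ha⟩ := Projectivization.exists_smul_eq_mk_rep K x hx
    refine ⟨(Projectivization.mk K x hx, a⁻¹), ?_⟩
    apply Subtype.ext
    change ((a⁻¹ : Kˣ) : K) • (Projectivization.mk K x hx).rep = x
    rw [← ha, ← Units.smul_def, smul_smul, inv_mul_cancel, one_smul]

/-- Nonzero vectors are multiples of representatives of points of projective space. -/
noncomputable def cone (K V : Type) [Field K] [AddCommGroup V] [Module K V] :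
    ℙ K V × Kˣ ≃ {x : V // x ≠ 0} :=
  Equiv.ofBijective _ (cone_bijective K V)

theorem cone_apply (K V : Type) [Field K] [AddCommGroup V] [Module K V] (v : ℙ K V) (u : Kˣ) :
    ((cone K V (v, u) : {x : V // x ≠ 0}) : V) = (u : K) • v.rep := rfl

/-- Points of a projective set and of its punctured cone. -/
theorem card_cone {K V : Type} [Field K] [Finite K] [AddCommGroup V] [Module K V] (p : V → Prop)
    (hp : ∀ (u : Kˣ) (v : V), p ((u : K) • v) ↔ p v) :
    (Nat.card {x : {x : V // x ≠ 0} // p x.1} : ℤ) =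
      ((Nat.card K : ℤ) - 1) * Nat.card {v : ℙ K V // p v.rep} := by
  have e : {v : ℙ K V // p v.rep} × Kˣ ≃ {x : {x : V // x ≠ 0} // p x.1} :=
    { toFun := fun v => ⟨cone K V (v.1.1, v.2), (hp v.2 v.1.1.rep).2 v.1.2⟩
      invFun := fun x => (⟨((cone K V).symm x.1).1, by
        have h1 := x.2
        rw [← (cone K V).apply_symm_apply x.1] at h1
        exact (hp _ _).1 h1⟩, ((cone K V).symm x.1).2)
      left_inv := fun v => by simp
      right_inv := fun x => by simp }
  rw [← Nat.card_congr e, Nat.card_prod, Nat.card_units]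
  have hK : 1 ≤ Nat.card K := Nat.card_pos
  push_cast [Nat.cast_sub hK]
  ring

section

variable {α β γ : Type} [Fintype α] [Fintype β] [Fintype γ] (H : Finset (α × β × γ))
  (K : Type) [Field K] [Finite K]

theorem sum_smul_smul_smul (x : α → K) (y : β → K) (z : γ → K) (s t u : K) :
    ∑ e ∈ H, (s • x) e.1 * (t • y) e.2.1 * (u • z) e.2.2 =
      s * t * u * ∑ e ∈ H, x e.1 * y e.2.1 * z e.2.2 := by
  rw [Finset.mul_sum]
  refine Finset.sum_congr rfl fun e _ => ?_
  simp only [Pi.smul_apply, smul_eq_mul]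
  ring

/-- The zeros with all three vectors nonzero. -/
noncomputable def nzCount : ℕ :=
  Nat.card {v : {x : α → K // x ≠ 0} × {y : β → K // y ≠ 0} × {z : γ → K // z ≠ 0} //
    ∑ e ∈ H, v.1.1 e.1 * v.2.1.1 e.2.1 * v.2.2.1 e.2.2 = 0}

theorem nzCount_eq :
    (nzCount H K : ℤ) = ((Nat.card K : ℤ) - 1) ^ 3 * multiCount H K := by
  have e : {v : ℙ K (α → K) × ℙ K (β → K) × ℙ K (γ → K) //
      ∑ e ∈ H, v.1.rep e.1 * v.2.1.rep e.2.1 * v.2.2.rep e.2.2 = 0} × (Kˣ × Kˣ × Kˣ) ≃
      {v : {x : α → K // x ≠ 0} × {y : β → K // y ≠ 0} × {z : γ → K // z ≠ 0} //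
        ∑ e ∈ H, v.1.1 e.1 * v.2.1.1 e.2.1 * v.2.2.1 e.2.2 = 0} :=
    { toFun := fun v => ⟨(cone K (α → K) (v.1.1.1, v.2.1), cone K (β → K) (v.1.1.2.1, v.2.2.1),
          cone K (γ → K) (v.1.1.2.2, v.2.2.2)), by
          rw [cone_apply, cone_apply, cone_apply, sum_smul_smul_smul, v.1.2, mul_zero]⟩
      invFun := fun w => (⟨(((cone K (α → K)).symm w.1.1).1, ((cone K (β → K)).symm w.1.2.1).1,
          ((cone K (γ → K)).symm w.1.2.2).1), by
          have h1 := w.2
          rw [← (cone K (α → K)).apply_symm_apply w.1.1,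
            ← (cone K (β → K)).apply_symm_apply w.1.2.1,
            ← (cone K (γ → K)).apply_symm_apply w.1.2.2] at h1
          rw [← Prod.mk.eta (p := (cone K (α → K)).symm w.1.1),
            ← Prod.mk.eta (p := (cone K (β → K)).symm w.1.2.1),
            ← Prod.mk.eta (p := (cone K (γ → K)).symm w.1.2.2),
            cone_apply, cone_apply, cone_apply, sum_smul_smul_smul] at h1
          rcases mul_eq_zero.1 h1 with h2 | h2
          · exfalso
            exact (mul_ne_zero (mul_ne_zero (Units.ne_zero _) (Units.ne_zero _))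
              (Units.ne_zero _)) h2
          · exact h2⟩,
          (((cone K (α → K)).symm w.1.1).2, ((cone K (β → K)).symm w.1.2.1).2,
            ((cone K (γ → K)).symm w.1.2.2).2))
      left_inv := fun v => by simp
      right_inv := fun w => by simp }
  have h1 := Nat.card_congr e
  unfold nzCount multiCount
  rw [← h1, Nat.card_prod, Nat.card_prod, Nat.card_prod, Nat.card_units]
  have hK : 1 ≤ Nat.card K := Nat.card_pos
  push_cast [Nat.cast_sub hK]
  ring

/-- The points of the bilinear system with both vectors nonzero. -/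
noncomputable def bzCount : ℕ :=
  Nat.card {v : {x : α → K // x ≠ 0} × {y : β → K // y ≠ 0} // zform H v.1.1 v.2.1 = 0}

theorem card_nonzero (ι : Type) [Fintype ι] :
    (Nat.card {x : ι → K // x ≠ 0} : ℤ) = (Nat.card K : ℤ) ^ Fintype.card ι - 1 := by
  classical
  have : Fintype K := Fintype.ofFinite K
  have h1 : Nat.card {x : ι → K // x ≠ 0} + 1 = Nat.card (ι → K) := by
    rw [← Finite.card_option]
    refine Nat.card_congr ?_
    exact
      { toFun := fun o => match o with
          | none => 0
          | some x => x.1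
        invFun := fun x => if h : x = 0 then none else some ⟨x, h⟩
        left_inv := fun o => by
          rcases o with _ | ⟨x, hx⟩
          · simp
          · simp [hx]
        right_inv := fun x => by
          by_cases h : x = 0
          · simp [h]
          · simp [h] }
  rw [Nat.card_fun, Nat.card_eq_fintype_card (α := ι)] at h1
  have h2 : ((Nat.card {x : ι → K // x ≠ 0} : ℤ)) + 1 = (Nat.card K : ℤ) ^ Fintype.card ι := by
    exact_mod_cast h1
  linarith

theorem card_ker_nonzero (φ : (γ → K) →ₗ[K] K) :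
    (Nat.card {z : {z : γ → K // z ≠ 0} // φ z.1 = 0} : ℤ) + 1 = Nat.card {z : γ → K // φ z = 0} := by
  classical
  have : Fintype K := Fintype.ofFinite K
  have h1 : Nat.card {z : {z : γ → K // z ≠ 0} // φ z.1 = 0} + 1 = Nat.card {z : γ → K // φ z = 0} := by
    rw [← Finite.card_option]
    refine Nat.card_congr ?_
    exact
      { toFun := fun o => match o with
          | none => ⟨0, map_zero φ⟩
          | some x => ⟨x.1.1, x.2⟩
        invFun := fun x => if h : x.1 = 0 then none else some ⟨⟨x.1, h⟩, x.2⟩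
        left_inv := fun o => by
          rcases o with _ | ⟨⟨x, hx⟩, hx'⟩
          · simp
          · simp [hx]
        right_inv := fun x => by
          by_cases h : x.1 = 0
          · simp only [h, dite_true]
            exact Subtype.ext h.symm
          · simp [h] }
  exact_mod_cast h1

theorem nzCount_bz (M : ℕ) (hM : Fintype.card γ = M + 1) :
    (nzCount H K : ℤ) = ((Nat.card K : ℤ) ^ Fintype.card α - 1) *
      ((Nat.card K : ℤ) ^ Fintype.card β - 1) * ((Nat.card K : ℤ) ^ M - 1) +
        ((Nat.card K : ℤ) - 1) * (Nat.card K : ℤ) ^ M * bzCount H K := by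
  classical
  have : Fintype K := Fintype.ofFinite K
  have e1 : nzCount H K = ∑ v : {x : α → K // x ≠ 0} × {y : β → K // y ≠ 0},
      Nat.card {z : {z : γ → K // z ≠ 0} // zform H v.1.1 v.2.1 z.1 = 0} := by
    unfold nzCount
    rw [← Nat.card_sigma]
    refine Nat.card_congr ?_
    refine
      { toFun := fun v => ⟨(v.1.1, v.1.2.1), ⟨v.1.2.2, by rw [zform_apply]; exact v.2⟩⟩
        invFun := fun v => ⟨(v.1.1, v.1.2, v.2.1), by
          have := v.2.2
          rw [zform_apply] at this
          exact this⟩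
        left_inv := fun v => rfl
        right_inv := fun v => rfl }
  have e2 : bzCount H K = ∑ v : {x : α → K // x ≠ 0} × {y : β → K // y ≠ 0},
      (if zform H v.1.1 v.2.1 = 0 then 1 else 0) := by
    unfold bzCount
    rw [Nat.card_eq_fintype_card, Fintype.card_subtype, Finset.card_filter]
  have hcard : (Nat.card (γ → K) : ℤ) = (Nat.card K : ℤ) ^ (M + 1) := by
    rw [Nat.card_fun, Nat.card_eq_fintype_card (α := γ), hM]
    push_cast
    rfl
  have hq : (Nat.card K : ℤ) ≠ 0 := by
    have : 0 < Nat.card K := Nat.card_pos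
    exact_mod_cast this.ne'
  have h3 : ∀ v : {x : α → K // x ≠ 0} × {y : β → K // y ≠ 0},
      (Nat.card {z : {z : γ → K // z ≠ 0} // zform H v.1.1 v.2.1 z.1 = 0} : ℤ) =
        ((Nat.card K : ℤ) ^ M - 1) +
          ((Nat.card K : ℤ) - 1) * (Nat.card K : ℤ) ^ M * (if zform H v.1.1 v.2.1 = 0 then 1 else 0) := by
    intro v
    have h4 := card_ker_nonzero K (zform H v.1.1 v.2.1)
    have h5 := card_ker_form (V := γ → K) (zform H v.1.1 v.2.1)
    rw [← h4, hcard] at h5
    apply mul_left_cancel₀ hq
    by_cases h : zform H v.1.1 v.2.1 = 0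
    · rw [if_pos h] at h5 ⊢
      linear_combination h5
    · rw [if_neg h] at h5 ⊢
      linear_combination h5
  rw [e1, e2]
  push_cast
  rw [Finset.sum_congr rfl fun v _ => h3 v, Finset.sum_add_distrib, Finset.sum_const,
    Finset.card_univ, Finset.mul_sum]
  congr 1
  rw [Fintype.card_prod, nsmul_eq_mul]
  have h6 := card_nonzero K α
  have h7 := card_nonzero K β
  rw [Nat.card_eq_fintype_card (α := {x : α → K // x ≠ 0})] at h6
  rw [Nat.card_eq_fintype_card (α := {x : β → K // x ≠ 0})] at h7
  push_cast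
  rw [h6, h7]

theorem multiCount_of_bz (M N : ℕ) (hM : Fintype.card γ = M + 1)
    (hN : (bzCount H K : ℤ) = ((Nat.card K : ℤ) - 1) ^ 2 * N) :
    multiCount H K = qn (Nat.card K) (Fintype.card α) * qn (Nat.card K) (Fintype.card β) *
      qn (Nat.card K) M + (Nat.card K) ^ M * N := by
  have h1 := nzCount_eq H K
  rw [nzCount_bz H K M hM, hN] at h1
  have hq : (1 : ℤ) < Nat.card K := by
    have : 1 < Nat.card K := Finite.one_lt_card
    exact_mod_cast this
  have hq1 : ((Nat.card K : ℤ) - 1) ^ 3 ≠ 0 := pow_ne_zero _ (by linarith)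
  have g : ∀ k : ℕ, (Nat.card K : ℤ) ^ k - 1 = ((Nat.card K : ℤ) - 1) * (qn (Nat.card K) k : ℕ) := by
    intro k
    have h2 := mul_geom_sum (Nat.card K : ℤ) k
    rw [← h2]
    congr 1
    unfold qn
    push_cast
    rfl
  rw [g, g, g] at h1
  have h3 : (multiCount H K : ℤ) = (qn (Nat.card K) (Fintype.card α) : ℤ) *
      (qn (Nat.card K) (Fintype.card β) : ℤ) * (qn (Nat.card K) M : ℤ) + (Nat.card K : ℤ) ^ M * N := by
    apply mul_left_cancel₀ hq1
    rw [← h1]
    ring
  exact_mod_cast h3

end

end Pool.Agent.HGM
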