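import Pool.Agent.HGC.Defs

/-!
# Hypersurfaces of multidegree (1,1,1): definitions

For a set `H` of triples `(i,j,k)` let `V_H` be the hypersurface `∑ x_i y_j z_k = 0`, the sum over `H`, in
the product of the three projective spaces with coordinates `x`, `y`, `z`.
-/

set_option autoImplicit false

open scoped BigOperators LinearAlgebra.Projectivization

namespace Pool.Agent.HGM

open Pool.Agent.HGC

/-- The number of points over `K` of the hypersurface `∑ x_i y_j z_k = 0` (the sum over the `(i,j,k)`
in `H`) in the product of three projective spaces. -/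
noncomputable def multiCount {α β γ : Type} (H : Finset (α × β × γ)) (K : Type) [Field K] : ℕ :=
  Nat.card {v : ℙ K (α → K) × ℙ K (β → K) × ℙ K (γ → K) //
    ∑ e ∈ H, v.1.rep e.1 * v.2.1.rep e.2.1 * v.2.2.rep e.2.2 = 0}

/-- `[k]_q = 1 + q + ... + q^(k-1)`, the number of points of projective `(k-1)`-space. -/
def qn (q k : ℕ) : ℕ := ∑ i ∈ Finset.range k, q ^ i

/-- The Euler product `exp (∑_p ∑_{r ≥ 1} f(p^r) p^{-rs} / r)` converges absolutely on some right
half plane and extends to an entire function. -/
def Entire (f : PF) : Prop :=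
  ∃ (σ : ℝ) (g : ℂ → ℂ), Differentiable ℂ g ∧
    ∀ s : ℂ, σ < s.re → Summable (term f s) ∧ g s = Complex.exp (∑' x, term f s x)

open Classical in
/-- The function `p^r ↦ (-1)^i f_i(p^r) - c p^(r i/2)` for the primes `p` outside `S`, where `f_i` is the
weight `i` part of the spectrum `μ`, and `φ` at the primes in `S`.

If `μ` is the spectrum of a projective scheme `X` over `ℤ` which is smooth outside `S`, then
`(-1)^i f_i(p^r)` is the trace of `Frob_p^r` on `H^i(X)` for `p` outside `S` (Deligne), and the Euler
product attached to this function is `L^i(X,s) ζ(s-i/2)^(-c)` with the Euler factors at the primes in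
`S` prescribed by `φ`.  For odd `i` one takes `c = 0`. -/
noncomputable def lfun (S : Set Nat.Primes) (φ : PF) (μ : Nat.Primes → ℂ →₀ ℤ) (i c : ℤ) : PF :=
  fun p r => if p ∈ S then φ p r else
    (((i.negOnePow : ℤˣ) : ℤ) : ℂ) * weightPart μ i p r - (c : ℂ) * (((p : ℕ) : ℂ) ^ (i / 2)) ^ r

/-- The function `q^M φ(q)`. -/
noncomputable def shift (M : ℕ) (φ : PF) : PF := fun p r => (((p : ℕ) : ℂ) ^ r) ^ M * φ p r

/-- The number of triples `(u,v,w)` of natural numbers with `u < a`, `v < b`, `w < M` and
`2 (u + v + w) = i + 2 M`; it is `0` for odd `i`. -/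
def kap (a b M : ℕ) (i : ℤ) : ℕ :=
  ((Finset.range a ×ˢ Finset.range b ×ˢ Finset.range M).filter
    fun t => 2 * ((t.1 + t.2.1 + t.2.2 : ℕ) : ℤ) = i + 2 * M).card

end Pool.Agent.HGM
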