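import Pool.Agent.HGM.Exact
import Pool.Agent.HGM.Spec

/-!
# Continuation and holomorphy of L-functions: one hypersurface of multidegree (1,1,1)

For every projective scheme `X` over `ℤ`, contained in projective space with `n` homogeneous
coordinates, there are a hypergraph `h` (a finite set of triples `(i,j,k)`) and a number `M` such that the
hypersurface `V_h` with equation `∑ x_i y_j z_k = 0`, the sum over the edges of `h`, in the product of
the projective spaces with `n`, `b` and `M + 1` homogeneous coordinates satisfies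

`#V_h(F_q) = [n]_q [b]_q [M]_q + q^M #X(F_q)`

for every finite field, and every `z_k` occurs in at most three monomials.  As a consequence, the
L-function of weight `i` of `X` has a meromorphic continuation, or is entire, if and only if this holds
for the part of weight `i + 2 M` of the zeta function of `V_h`; for even `i` powers of `ζ(s - i/2)` are
taken out.
-/

set_option autoImplicit false

namespace Pool.Agent.HGM.OneHyp

open Pool.Agent.HGC Pool.Agent.HGM

theorem result (n m : ℕ) (P : Fin m → MvPolynomial (Fin n) ℤ)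
    (hP : ∀ i, ∃ d, 1 ≤ d ∧ (P i).IsHomogeneous d) :
    ∃ (h : HG) (M : ℕ), h.a = n ∧ h.c = M + 1 ∧ ZDeg 3 h.edges ∧
      (∀ (K : Type) [Field K] [Finite K], multiCount h.edges K =
        qn (Nat.card K) h.a * qn (Nat.card K) h.b * qn (Nat.card K) M +
          Nat.card K ^ M * projCount P K) ∧
      ∀ μ ν : Nat.Primes → ℂ →₀ ℤ, IsSpectrum (countPF (projCount P)) μ →
        IsSpectrum (countPF (multiCount h.edges)) ν →
        ∀ (S : Set Nat.Primes) (φ : PF) (i c : ℤ),
          (Continues (lfun S φ μ i c) ↔
            Continues (lfun S (shift M φ) ν (i + 2 * M) (c + kap h.a h.b M i))) ∧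
          (Entire (lfun S φ μ i c) ↔
            Entire (lfun S (shift M φ) ν (i + 2 * M) (c + kap h.a h.b M i))) := by
  obtain ⟨h, M, h1, h2, h3, h4⟩ := exact_count P hP
  refine ⟨h, M, h1, h2, h3, h4, fun μ ν hμ hν S φ i c => ?_⟩
  have hg : ∀ (p : Nat.Primes) (r : ℕ), 1 ≤ r → countPF (multiCount h.edges) p r =
      ((qn ((p : ℕ) ^ r) h.a * qn ((p : ℕ) ^ r) h.b * qn ((p : ℕ) ^ r) M : ℕ) : ℂ) +
        shift M (countPF (projCount P)) p r := by
    intro p r hr
    haveI : Fact (p : ℕ).Prime := ⟨p.2⟩
    have hcard : Nat.card (GaloisField (p : ℕ) r) = (p : ℕ) ^ r := GaloisField.card _ _ (by omega)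
    have h5 := h4 (GaloisField (p : ℕ) r)
    rw [hcard] at h5
    rw [shift, countPF_eq, countPF_eq, h5]
    push_cast
    ring
  have h6 : lfun S (shift M φ) ν (i + 2 * M) (c + kap h.a h.b M i) =
      shift M (lfun S φ μ i c) := by
    funext p r
    exact lfun_shift h.a h.b M _ _ hg μ ν hμ hν S φ i c p r
  rw [h6, continues_shift_iff, entire_shift_iff]
  exact ⟨Iff.rfl, Iff.rfl⟩

end Pool.Agent.HGM.OneHyp
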