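import Pool.Agent.HGM.System

/-!
# Registers
-/

set_option autoImplicit false

open scoped BigOperators LinearAlgebra.Projectivization

namespace Pool.Agent.HGM

open Pool.Agent.HGC

section

variable {n D : ℕ} {ι : Type} [Fintype ι] [DecidableEq ι] (ℓ : ι → List (Bool × (Fin D → Fin n)))

/-- Registers: the words, and the partial sums of the lists. -/
abbrev Rg : Type := (Fin D → Fin n) ⊕ (Σ i : ι, Fin ((ℓ i).length + 1))

/-- Indices of the equations. -/
abbrev Gm : Type :=
  ((Fin D → Fin n) × Fin D × Fin n) ⊕ ((Rg ℓ × Fin n) ⊕ (((Σ i : ι, Fin (ℓ i).length) × Fin n) ⊕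
    ((ι × Fin n) ⊕ ((ι × Fin n) ⊕ Unit))))

/-- The terms of the equations. -/
def tm : Gm ℓ → Finset (Fin n × (Rg ℓ × Bool))
  | .inl (w, t, j) => {(j, (.inl w, true)), (w t, (.inl (Function.update w t j), false))}
  | .inr (.inl (s, j)) => {(j, (s, true)), (j, (s, false))}
  | .inr (.inr (.inl (⟨i, l⟩, j))) =>
      {(j, (.inr ⟨i, l.succ⟩, true)), (j, (.inr ⟨i, l.castSucc⟩, false)),
        (j, (.inl ((ℓ i).get l).2, !((ℓ i).get l).1))}
  | .inr (.inr (.inr (.inl (i, j)))) => {(j, (.inr ⟨i, 0⟩, true))}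
  | .inr (.inr (.inr (.inr (.inl (i, j))))) => {(j, (.inr ⟨i, Fin.last _⟩, true))}
  | .inr (.inr (.inr (.inr (.inr _)))) => ∅

theorem tm_card (k : Gm ℓ) : (tm ℓ k).card ≤ 3 := by
  rcases k with ⟨w, t, j⟩ | ⟨s, j⟩ | ⟨⟨i, l⟩, j⟩ | ⟨i, j⟩ | ⟨i, j⟩ | _
  · exact (Finset.card_le_two).trans (by norm_num)
  · exact (Finset.card_le_two).trans (by norm_num)
  · exact Finset.card_le_three
  · simp [tm]
  · simp [tm]
  · simp [tm]

variable {K : Type} [Field K]

/-- The system in plain form. -/
structure Sys (x : Fin n → K) (y : Rg ℓ × Bool → K) : Prop where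
  e1 : ∀ (w : Fin D → Fin n) (t : Fin D) (j : Fin n),
    x j * y (.inl w, true) + x (w t) * y (.inl (Function.update w t j), false) = 0
  e2 : ∀ (s : Rg ℓ) (j : Fin n), x j * y (s, true) + x j * y (s, false) = 0
  e3 : ∀ (i : ι) (l : Fin (ℓ i).length) (j : Fin n),
    x j * y (.inr ⟨i, l.succ⟩, true) + (x j * y (.inr ⟨i, l.castSucc⟩, false) +
      x j * y (.inl ((ℓ i).get l).2, !((ℓ i).get l).1)) = 0
  e4 : ∀ (i : ι) (j : Fin n), x j * y (.inr ⟨i, 0⟩, true) = 0
  e5 : ∀ (i : ι) (j : Fin n), x j * y (.inr ⟨i, Fin.last _⟩, true) = 0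

theorem sys_iff (x : Fin n → K) (y : Rg ℓ × Bool → K) :
    (∀ k, ∑ t ∈ tm ℓ k, x t.1 * y t.2 = 0) ↔ Sys ℓ x y := by
  have f1 : ∀ (w : Fin D → Fin n) (t : Fin D) (j : Fin n),
      ∑ t ∈ tm ℓ (.inl (w, t, j)), x t.1 * y t.2 =
        x j * y (.inl w, true) + x (w t) * y (.inl (Function.update w t j), false) := by
    intro w t j
    rw [tm, Finset.sum_pair (by simp)]
  have f2 : ∀ (s : Rg ℓ) (j : Fin n), ∑ t ∈ tm ℓ (.inr (.inl (s, j))), x t.1 * y t.2 =
      x j * y (s, true) + x j * y (s, false) := by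
    intro s j
    rw [tm, Finset.sum_pair (by simp)]
  have f3 : ∀ (i : ι) (l : Fin (ℓ i).length) (j : Fin n),
      ∑ t ∈ tm ℓ (.inr (.inr (.inl (⟨i, l⟩, j)))), x t.1 * y t.2 =
        x j * y (.inr ⟨i, l.succ⟩, true) + (x j * y (.inr ⟨i, l.castSucc⟩, false) +
          x j * y (.inl ((ℓ i).get l).2, !((ℓ i).get l).1)) := by
    intro i l j
    rw [tm, Finset.sum_insert (by simp), Finset.sum_pair (by simp)]
  have f4 : ∀ (i : ι) (j : Fin n), ∑ t ∈ tm ℓ (.inr (.inr (.inr (.inl (i, j))))), x t.1 * y t.2 =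
      x j * y (.inr ⟨i, 0⟩, true) := by
    intro i j
    rw [tm, Finset.sum_singleton]
  have f5 : ∀ (i : ι) (j : Fin n),
      ∑ t ∈ tm ℓ (.inr (.inr (.inr (.inr (.inl (i, j)))))), x t.1 * y t.2 =
        x j * y (.inr ⟨i, Fin.last _⟩, true) := by
    intro i j
    rw [tm, Finset.sum_singleton]
  constructor
  · intro h
    exact ⟨fun w t j => by rw [← f1]; exact h _, fun s j => by rw [← f2]; exact h _,
      fun i l j => by rw [← f3]; exact h _, fun i j => by rw [← f4]; exact h _,
      fun i j => by rw [← f5]; exact h _⟩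
  · intro h k
    rcases k with ⟨w, t, j⟩ | ⟨s, j⟩ | ⟨⟨i, l⟩, j⟩ | ⟨i, j⟩ | ⟨i, j⟩ | _
    · rw [f1]; exact h.e1 w t j
    · rw [f2]; exact h.e2 s j
    · rw [f3]; exact h.e3 i l j
    · rw [f4]; exact h.e4 i j
    · rw [f5]; exact h.e5 i j
    · rw [tm, Finset.sum_empty]

/-- The value of a register at `x`. -/
def reg (x : Fin n → K) : Rg ℓ → K
  | .inl w => ∏ t, x (w t)
  | .inr ⟨i, l⟩ => lval x ((ℓ i).take l)

/-- The signed values. -/
def val (x : Fin n → K) (rb : Rg ℓ × Bool) : K := sgn K rb.2 * reg ℓ x rb.1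

theorem prod_update (x : Fin n → K) (w : Fin D → Fin n) (t : Fin D) (j : Fin n) :
    x j * ∏ s, x (w s) = x (w t) * ∏ s, x (Function.update w t j s) := by
  rw [← Finset.mul_prod_erase Finset.univ (fun s => x (w s)) (Finset.mem_univ t),
    ← Finset.mul_prod_erase Finset.univ (fun s => x (Function.update w t j s)) (Finset.mem_univ t)]
  have h1 : ∏ s ∈ Finset.univ.erase t, x (Function.update w t j s) =
      ∏ s ∈ Finset.univ.erase t, x (w s) := by
    refine Finset.prod_congr rfl fun s hs => ?_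
    rw [Function.update_of_ne (Finset.ne_of_mem_erase hs)]
  rw [h1, Function.update_self]
  ring

theorem take_succ_val (i : ι) (l : Fin (ℓ i).length) (x : Fin n → K) :
    lval x ((ℓ i).take (l.succ : ℕ)) = lval x ((ℓ i).take (l.castSucc : ℕ)) +
      sgn K ((ℓ i).get l).1 * ∏ t, x (((ℓ i).get l).2 t) := by
  have h1 : (ℓ i).take (l.succ : ℕ) = (ℓ i).take (l.castSucc : ℕ) ++ [(ℓ i).get l] := by
    simp
  rw [h1, lval_append, lval_singleton]

/-- Soundness. -/
theorem sys_val (x : Fin n → K) (hx : ∀ i, lval x (ℓ i) = 0) (c : K) :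
    Sys ℓ x (fun rb => c * val ℓ x rb) where
  e1 w t j := by
    have := prod_update x w t j
    simp only [val, reg, sgn_true, sgn_false]
    linear_combination c * this
  e2 s j := by
    simp only [val, sgn_true, sgn_false]
    ring
  e3 i l j := by
    simp only [val, reg, sgn_not, take_succ_val, sgn_true, sgn_false]
    ring
  e4 i j := by
    simp [val, reg, lval_nil]
  e5 i j := by
    simp [val, reg, hx i]

/-- Completeness. -/
theorem sys_complete (x : Fin n → K) (hx : x ≠ 0) (y : Rg ℓ × Bool → K) (h : Sys ℓ x y) :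
    ∃ c : K, (∀ rb, y rb = c * val ℓ x rb) ∧ (∀ i, c * lval x (ℓ i) = 0) := by
  classical
  obtain ⟨j, hj⟩ : ∃ j, x j ≠ 0 := by
    by_contra h'
    push Not at h'
    exact hx (funext h')
  have hneg : ∀ s, y (s, false) = -y (s, true) := by
    intro s
    have h1 := h.e2 s j
    have h2 : x j * (y (s, true) + y (s, false)) = 0 := by rw [mul_add]; exact h1
    rcases mul_eq_zero.1 h2 with h3 | h3
    · exact absurd h3 hj
    · linear_combination h3
  have hbool : ∀ s b, y (s, b) = sgn K b * y (s, true) := by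
    intro s b
    cases b
    · rw [hneg, sgn_false]; ring
    · rw [sgn_true]; ring
  -- words
  have hw : ∀ (w : Fin D → Fin n) (S : Finset (Fin D)),
      y (.inl w, true) * x j ^ S.card =
        y (.inl (fun t => if t ∈ S then j else w t), true) * ∏ t ∈ S, x (w t) := by
    intro w S
    induction S using Finset.induction_on with
    | empty => simp
    | insert a S ha ih =>
      rw [Finset.card_insert_of_notMem ha, Finset.prod_insert ha]
      have h1 := h.e1 (fun t => if t ∈ S then j else w t) a j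
      have h2 : Function.update (fun t => if t ∈ S then j else w t) a j =
          fun t => if t ∈ insert a S then j else w t := by
        funext t
        by_cases hta : t = a
        · subst hta
          simp
        · rw [Function.update_of_ne hta]
          simp [hta]
      rw [h2, hneg] at h1
      simp only [ha, if_false] at h1
      rw [pow_succ, ← mul_assoc, ih]
      linear_combination (∏ t ∈ S, x (w t)) * h1
  set c : K := y (.inl (fun _ => j), true) / x j ^ D with hc
  have hw2 : ∀ w : Fin D → Fin n, y (.inl w, true) = c * ∏ t, x (w t) := by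
    intro w
    have h1 := hw w Finset.univ
    simp only [Finset.mem_univ, if_true, Finset.card_univ, Fintype.card_fin] at h1
    have h2 : x j ^ D ≠ 0 := pow_ne_zero _ hj
    rw [hc, div_mul_eq_mul_div, ← h1]
    field_simp
  -- partial sums
  have hs : ∀ (i : ι) (l : ℕ) (hl : l < (ℓ i).length + 1),
      y (.inr ⟨i, ⟨l, hl⟩⟩, true) = c * lval x ((ℓ i).take l) := by
    intro i l
    induction l with
    | zero =>
      intro hl
      have h1 := h.e4 i j
      rcases mul_eq_zero.1 h1 with h2 | h2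
      · exact absurd h2 hj
      · rw [List.take_zero, lval_nil, mul_zero]
        exact h2
    | succ l ih =>
      intro hl
      have hl' : l < (ℓ i).length := by omega
      have h1 := h.e3 i ⟨l, hl'⟩ j
      have h2 : x j * (y (.inr ⟨i, (⟨l, hl'⟩ : Fin _).succ⟩, true) +
          (y (.inr ⟨i, (⟨l, hl'⟩ : Fin _).castSucc⟩, false) +
            y (.inl ((ℓ i).get ⟨l, hl'⟩).2, !((ℓ i).get ⟨l, hl'⟩).1))) = 0 := by
        rw [mul_add, mul_add]; exact h1
      rcases mul_eq_zero.1 h2 with h3 | h3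
      · exact absurd h3 hj
      · rw [hneg, hbool _ (!((ℓ i).get ⟨l, hl'⟩).1), sgn_not, hw2] at h3
        have h4 := ih (by omega)
        have h5 := take_succ_val (K := K) ℓ i ⟨l, hl'⟩ x
        have h6 : y (.inr ⟨i, (⟨l, hl'⟩ : Fin (ℓ i).length).castSucc⟩, true) =
            c * lval x ((ℓ i).take l) := h4
        rw [h6] at h3
        have h7 : lval x (List.take (l + 1) (ℓ i)) = lval x (List.take l (ℓ i)) +
            sgn K ((ℓ i).get ⟨l, hl'⟩).1 * ∏ t, x (((ℓ i).get ⟨l, hl'⟩).2 t) := h5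
        rw [h7]
        have h8 : y (.inr ⟨i, (⟨l, hl'⟩ : Fin (ℓ i).length).succ⟩, true) =
            y (.inr ⟨i, ⟨l + 1, hl⟩⟩, true) := rfl
        rw [h8] at h3
        linear_combination h3
  refine ⟨c, ?_, ?_⟩
  · rintro ⟨r, b⟩
    rw [hbool, val]
    rcases r with w | ⟨i, ⟨l, hl⟩⟩
    · rw [hw2, reg]; ring
    · rw [hs, reg]; ring
  · intro i
    have h1 := h.e5 i j
    rcases mul_eq_zero.1 h1 with h2 | h2
    · exact absurd h2 hj
    · have h3 := hs i (ℓ i).length (by omega)
      rw [List.take_length] at h3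
      rw [← h3]
      exact h2

theorem val_ne (x : Fin n → K) (hx : x ≠ 0) : ∃ rb, val ℓ x rb ≠ 0 := by
  obtain ⟨j, hj⟩ : ∃ j, x j ≠ 0 := by
    by_contra h'
    push Not at h'
    exact hx (funext h')
  refine ⟨(.inl (fun _ => j), true), ?_⟩
  simp [val, reg, sgn, hj]

end

end Pool.Agent.HGM
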