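import Pool.Agent.HGC.Defs

/-!
# Homogeneous integer polynomials as sums of signed words
-/

set_option autoImplicit false

open scoped BigOperators

namespace Pool.Agent.HGM

/-- the sign of a Boolean -/
def sgn (K : Type) [Field K] (b : Bool) : K := if b then 1 else -1

theorem sgn_true (K : Type) [Field K] : sgn K true = 1 := by simp [sgn]

theorem sgn_false (K : Type) [Field K] : sgn K false = -1 := by simp [sgn]

theorem sgn_not (K : Type) [Field K] (b : Bool) : sgn K (!b) = -sgn K b := by
  cases b <;> simp [sgn]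

theorem sgn_mul_self (K : Type) [Field K] (b : Bool) : sgn K b * sgn K b = 1 := by
  cases b <;> simp [sgn]

/-- The value of a list of signed words. -/
def lval {n D : ℕ} {K : Type} [Field K] (x : Fin n → K) (l : List (Bool × (Fin D → Fin n))) : K :=
  (l.map fun p => sgn K p.1 * ∏ t, x (p.2 t)).sum

theorem lval_nil {n D : ℕ} {K : Type} [Field K] (x : Fin n → K) :
    lval x ([] : List (Bool × (Fin D → Fin n))) = 0 := by simp [lval]

theorem lval_append {n D : ℕ} {K : Type} [Field K] (x : Fin n → K)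
    (l l' : List (Bool × (Fin D → Fin n))) : lval x (l ++ l') = lval x l + lval x l' := by
  simp [lval]

theorem lval_singleton {n D : ℕ} {K : Type} [Field K] (x : Fin n → K)
    (p : Bool × (Fin D → Fin n)) : lval x [p] = sgn K p.1 * ∏ t, x (p.2 t) := by
  simp [lval]

theorem lval_neg {n D : ℕ} {K : Type} [Field K] (x : Fin n → K)
    (l : List (Bool × (Fin D → Fin n))) :
    lval x (l.map fun p => (!p.1, p.2)) = -lval x l := by
  induction l with
  | nil => simp [lval]
  | cons p l ih =>
    simp only [lval, List.map_cons, List.sum_cons] at ih ⊢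
    rw [ih, sgn_not]
    ring

/-- `Q` is the value of a list of signed words of length `D`. -/
def Rep {n : ℕ} (D : ℕ) (Q : MvPolynomial (Fin n) ℤ) : Prop :=
  ∃ l : List (Bool × (Fin D → Fin n)), ∀ (K : Type) [Field K] (x : Fin n → K),
    MvPolynomial.aeval x Q = lval x l

theorem Rep.zero {n : ℕ} (D : ℕ) : Rep D (0 : MvPolynomial (Fin n) ℤ) :=
  ⟨[], fun K _ x => by simp [lval]⟩

theorem Rep.add {n D : ℕ} {P Q : MvPolynomial (Fin n) ℤ} (hP : Rep D P) (hQ : Rep D Q) :
    Rep D (P + Q) := by
  obtain ⟨l, hl⟩ := hP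
  obtain ⟨l', hl'⟩ := hQ
  exact ⟨l ++ l', fun K _ x => by rw [map_add, hl, hl', lval_append]⟩

theorem Rep.neg {n D : ℕ} {P : MvPolynomial (Fin n) ℤ} (hP : Rep D P) : Rep D (-P) := by
  obtain ⟨l, hl⟩ := hP
  exact ⟨l.map fun p => (!p.1, p.2), fun K _ x => by rw [map_neg, hl, lval_neg]⟩

theorem Rep.nsmul {n D : ℕ} {P : MvPolynomial (Fin n) ℤ} (hP : Rep D P) (k : ℕ) :
    Rep D (k • P) := by
  induction k with
  | zero => rw [zero_smul]; exact Rep.zero D
  | succ k ih => rw [succ_nsmul]; exact ih.add hP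

theorem Rep.zsmul {n D : ℕ} {P : MvPolynomial (Fin n) ℤ} (hP : Rep D P) (k : ℤ) :
    Rep D (k • P) := by
  obtain ⟨m, rfl | rfl⟩ := k.eq_nat_or_neg
  · rw [natCast_zsmul]; exact hP.nsmul m
  · rw [neg_smul, natCast_zsmul]; exact (hP.nsmul m).neg

theorem Rep.sum {n D : ℕ} {ι : Type*} (s : Finset ι) (P : ι → MvPolynomial (Fin n) ℤ)
    (hP : ∀ i ∈ s, Rep D (P i)) : Rep D (∑ i ∈ s, P i) := by
  classical
  induction s using Finset.induction_on with
  | empty => rw [Finset.sum_empty]; exact Rep.zero D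
  | insert a s ha ih =>
    rw [Finset.sum_insert ha]
    exact (hP a (Finset.mem_insert_self _ _)).add (ih fun i hi => hP i (Finset.mem_insert_of_mem hi))

/-- A monomial is a word. -/
theorem exists_word {n D : ℕ} (m : Fin n →₀ ℕ) (hm : Multiset.card (Finsupp.toMultiset m) = D) :
    ∃ w : Fin D → Fin n, ∀ (K : Type) [Field K] (x : Fin n → K),
      (m.prod fun i e => x i ^ e) = ∏ t, x (w t) := by
  subst hm
  have hlen : (Finsupp.toMultiset m).toList.length = Multiset.card (Finsupp.toMultiset m) :=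
    Multiset.length_toList _
  refine ⟨fun t => (Finsupp.toMultiset m).toList.get (Fin.cast hlen.symm t), fun K _ x => ?_⟩
  have h1 : (m.prod fun i e => x i ^ e) = ((Finsupp.toMultiset m).map x).prod := by
    rw [Finsupp.toMultiset_map, Finsupp.prod_toMultiset, Finsupp.prod_mapDomain_index]
    · intro b; exact pow_zero _
    · intro b e f; exact pow_add _ _ _
  have h2 : ((Finsupp.toMultiset m).map x).prod = ((Finsupp.toMultiset m).toList.map x).prod := by
    conv_lhs => rw [← Multiset.coe_toList (Finsupp.toMultiset m)]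
    rw [Multiset.map_coe, Multiset.prod_coe]
  rw [h1, h2, ← List.prod_ofFn]
  congr 1
  apply List.ext_getElem
  · simp [hlen]
  · intro i h3 h4
    simp

theorem rep_of_isHomogeneous {n D : ℕ} {Q : MvPolynomial (Fin n) ℤ} (hQ : Q.IsHomogeneous D) :
    Rep D Q := by
  classical
  rw [← MvPolynomial.support_sum_monomial_coeff Q]
  refine Rep.sum _ _ fun m hm => ?_
  have h1 : MvPolynomial.monomial m (MvPolynomial.coeff m Q) =
      (MvPolynomial.coeff m Q) • MvPolynomial.monomial m (1 : ℤ) := by
    rw [MvPolynomial.smul_monomial, smul_eq_mul, mul_one]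
  rw [h1]
  refine Rep.zsmul ?_ _
  have hd : Multiset.card (Finsupp.toMultiset m) = D := by
    have h2 := hQ (MvPolynomial.mem_support_iff.mp hm)
    rw [Finsupp.card_toMultiset, ← h2, Finsupp.weight_apply]
    simp [Finsupp.sum]
  obtain ⟨w, hw⟩ := exists_word m hd
  refine ⟨[(true, w)], fun K _ x => ?_⟩
  rw [lval_singleton, MvPolynomial.aeval_monomial, hw K x]
  simp [sgn]

end Pool.Agent.HGM
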