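import Pool.Agent.HGM.Count
import Pool.Agent.HGM.Words

/-!
# The trinomial bilinear system attached to lists of signed words
-/

set_option autoImplicit false

open scoped BigOperators LinearAlgebra.Projectivization

namespace Pool.Agent.HGM

open Pool.Agent.HGC

section edges

variable {α β γ : Type} [Fintype α] [Fintype β] [Fintype γ] [DecidableEq α] [DecidableEq β]
  [DecidableEq γ]

/-- The set of triples `(i,j,k)` with `(i,j)` in `T k`. -/
def edgesOf (T : γ → Finset (α × β)) : Finset (α × β × γ) :=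
  Finset.univ.filter fun e => (e.1, e.2.1) ∈ T e.2.2

theorem sum_edgesOf (T : γ → Finset (α × β)) {K : Type} [Field K] (x : α → K) (y : β → K)
    (z : γ → K) :
    ∑ e ∈ edgesOf T, x e.1 * y e.2.1 * z e.2.2 = ∑ k, (∑ t ∈ T k, x t.1 * y t.2) * z k := by
  unfold edgesOf
  rw [Finset.sum_filter]
  have h1 : ∀ k, (∑ t ∈ T k, x t.1 * y t.2) * z k =
      ∑ i, ∑ j, if (i, j) ∈ T k then x i * y j * z k else 0 := by
    intro k
    have h2 : ∑ t ∈ T k, x t.1 * y t.2 * z k =
        ∑ t : α × β, if t ∈ T k then x t.1 * y t.2 * z k else 0 := by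
      rw [← Finset.sum_filter, Finset.filter_univ_mem]
    rw [Finset.sum_mul, h2, Fintype.sum_prod_type]
  rw [Finset.sum_congr rfl fun k _ => h1 k]
  simp only [Fintype.sum_prod_type]
  rw [Finset.sum_comm (s := (Finset.univ : Finset γ))]
  refine Finset.sum_congr rfl fun i _ => ?_
  rw [Finset.sum_comm]

theorem zform_edgesOf (T : γ → Finset (α × β)) {K : Type} [Field K] (x : α → K) (y : β → K) :
    zform (edgesOf T) x y = 0 ↔ ∀ k, ∑ t ∈ T k, x t.1 * y t.2 = 0 := by
  constructor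
  · intro h k
    have h1 : zform (edgesOf T) x y (Pi.single k 1) = 0 := by rw [h]; rfl
    rw [zform_apply, sum_edgesOf] at h1
    simpa [Pi.single_apply] using h1
  · intro h
    refine LinearMap.ext fun z => ?_
    rw [zform_apply, sum_edgesOf]
    simp [h]

theorem zdeg_edgesOf (T : γ → Finset (α × β)) (d : ℕ) (h : ∀ k, (T k).card ≤ d) :
    ZDeg d (edgesOf T) := by
  intro k
  refine le_trans ?_ (h k)
  rw [← Set.ncard_coe_finset]
  refine Set.ncard_le_ncard_of_injOn (fun e => (e.1, e.2.1)) ?_ ?_ (Finset.finite_toSet _)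
  · rintro ⟨i, j, k'⟩ ⟨h1, h2⟩
    simp only at h2
    subst h2
    simpa [edgesOf] using h1
  · rintro ⟨i, j, k'⟩ ⟨h1, h2⟩ ⟨i', j', k''⟩ ⟨h3, h4⟩ h5
    simp only [Prod.mk.injEq] at h2 h4 h5 ⊢
    exact ⟨h5.1, h5.2, by rw [h2, h4]⟩

end edges

end Pool.Agent.HGM
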